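import Pool.Agent.Helper61.Tri.Goals

/-!
# MP_5b3c48_co, packet E6
-/

set_option autoImplicit false

open Finset

namespace Pool.Agent.Helper6.Tri

open Pool.Agent.Helper61.Tri

noncomputable section

open scoped Classical

/-- Packet E6. -/
theorem e6 : EPTools → Interleave → E6 := by
  intro T hI s hs V _ G m x w hm hgrid y g z hy hg hyg hz hzx hzw hzy hzg
  have hm0 : 0 < m := by omega
  have xw : ∀ i < m, ∀ j < m, x i ≠ w j := fun i hi j hj => (hgrid.adj i hi j hj).ne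
  have gx : ∀ i < m, ∀ j < m, ∀ i' < m, g i j ≠ x i' :=
    fun i hi j hj i' hi' => hg.nx i hi j hj i' hi' 0 hm0
  have gw : ∀ i < m, ∀ j < m, ∀ j' < m, g i j ≠ w j' :=
    fun i hi j hj j' hj' => hg.nw i hi j hj 0 hm0 j' hj'
  have yx : ∀ i < m, ∀ j < m, ∀ i' < m, y i j ≠ x i' :=
    fun i hi j hj i' hi' => hy.nx i hi j hj i' hi' 0 hm0
  have yw : ∀ i < m, ∀ j < m, ∀ j' < m, y i j ≠ w j' :=
    fun i hi j hj j' hj' => hy.nw i hi j hj 0 hm0 j' hj'
  have zx : ∀ i < m, ∀ j < m, ∀ i' < m, z i j ≠ x i' :=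
    fun i hi j hj i' hi' => hzx i hi j hj i' hi' 0 hm0
  have zw : ∀ i < m, ∀ j < m, ∀ j' < m, z i j ≠ w j' :=
    fun i hi j hj j' hj' => hzw i hi j hj 0 hm0 j' hj'
  set t := s - 1 with ht
  have htm : t + 1 < m := by omega
  set S0 : Finset V := (range (t + 1)).image x ∪ (range t).image (fun i => w (i + 1)) ∪
    (range t).image (fun i => g i (i + 1)) ∪ (range t).image (fun i => y (i + 1) (i + 1)) with hS0
  have hS0m : ∀ v, v ∈ S0 ↔ (∃ i, i < t + 1 ∧ x i = v) ∨ (∃ i, i < t ∧ w (i + 1) = v) ∨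
      (∃ i, i < t ∧ g i (i + 1) = v) ∨ (∃ i, i < t ∧ y (i + 1) (i + 1) = v) := by
    intro v
    simp only [hS0, mem_union, mem_image, mem_range, or_assoc]
  have e0 : EP G (2 * t) (x 0) (x t) S0 := by
    refine hI V G t x (fun i => w (i + 1)) (fun i => g i (i + 1)) (fun i => y (i + 1) (i + 1)) S0
      ?_ ?_ ?_ ?_ ?_ ?_ ?_ ?_ ?_
    · intro i hi
      exact ⟨hgrid.adj i (by omega) (i + 1) (by omega), hg.adjx i (by omega) (i + 1) (by omega),
        hg.adjw i (by omega) (i + 1) (by omega),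
        (hgrid.adj (i + 1) (by omega) (i + 1) (by omega)).symm,
        hy.adjw (i + 1) (by omega) (i + 1) (by omega),
        hy.adjx (i + 1) (by omega) (i + 1) (by omega)⟩
    · intro i hi j hj hij
      exact hgrid.injx i (by omega) j (by omega) hij
    · intro i hi j hj hij
      have := hgrid.injw (i + 1) (by omega) (j + 1) (by omega) hij
      omega
    · intro i hi j hj hij
      by_contra hne
      exact hg.di i (by omega) (i + 1) (by omega) j (by omega) (j + 1) (by omega) hne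
        (by omega) hij
    · intro i hi j hj hij
      by_contra hne
      exact hy.di (i + 1) (by omega) (i + 1) (by omega) (j + 1) (by omega) (j + 1) (by omega)
        (by omega) (by omega) hij
    · intro i hi j hj
      exact ⟨xw i (by omega) (j + 1) (by omega),
        (gx j (by omega) (j + 1) (by omega) i (by omega)).symm,
        (yx (j + 1) (by omega) (j + 1) (by omega) i (by omega)).symm⟩
    · intro i hi j hj
      exact ⟨(gw j (by omega) (j + 1) (by omega) (i + 1) (by omega)).symm,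
        (yw (j + 1) (by omega) (j + 1) (by omega) (i + 1) (by omega)).symm,
        (hyg (j + 1) (by omega) (j + 1) (by omega) i (by omega) (i + 1) (by omega)).symm⟩
    · intro i hi
      rw [hS0m]
      exact Or.inl ⟨i, by omega, rfl⟩
    · intro i hi
      refine ⟨?_, ?_, ?_⟩
      · rw [hS0m]; exact Or.inr (Or.inl ⟨i, hi, rfl⟩)
      · rw [hS0m]; exact Or.inr (Or.inr (Or.inl ⟨i, hi, rfl⟩))
      · rw [hS0m]; exact Or.inr (Or.inr (Or.inr ⟨i, hi, rfl⟩))
  have e1 : EP G 1 (x t) (w 0) {x t, w 0, g t 0} :=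
    T.single (hgrid.adj t (by omega) 0 hm0) (hg.adjx t (by omega) 0 hm0)
      (hg.adjw t (by omega) 0 hm0)
  have e01 : EP G (2 * t + 1) (x 0) (w 0) (S0 ∪ {x t, w 0, g t 0}) := by
    refine T.trans e0 e1 ?_
    intro v hv
    simp only [mem_inter, mem_insert, mem_singleton] at hv ⊢
    obtain ⟨h1, h2⟩ := hv
    rw [hS0m] at h1
    rcases h2 with rfl | rfl | rfl
    · rfl
    · exfalso
      rcases h1 with ⟨i, hi, h⟩ | ⟨i, hi, h⟩ | ⟨i, hi, h⟩ | ⟨i, hi, h⟩
      · exact xw i (by omega) 0 hm0 h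
      · have := hgrid.injw (i + 1) (by omega) 0 hm0 h
        omega
      · exact gw i (by omega) (i + 1) (by omega) 0 hm0 h
      · exact yw (i + 1) (by omega) (i + 1) (by omega) 0 hm0 h
    · exfalso
      rcases h1 with ⟨i, hi, h⟩ | ⟨i, hi, h⟩ | ⟨i, hi, h⟩ | ⟨i, hi, h⟩
      · exact gx t (by omega) 0 hm0 i (by omega) h.symm
      · exact gw t (by omega) 0 hm0 (i + 1) (by omega) h.symm
      · exact hg.di i (by omega) (i + 1) (by omega) t (by omega) 0 hm0 (by omega) (by omega) h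
      · exact hyg (i + 1) (by omega) (i + 1) (by omega) t (by omega) 0 hm0 h
  have e2 : EP G 1 (w 0) (y 0 0) {w 0, y 0 0, z 0 0} :=
    T.single (hy.adjw 0 hm0 0 hm0) (hz 0 hm0 0 hm0).2 (hz 0 hm0 0 hm0).1
  have e3 : EP G (2 * t + 1 + 1) (x 0) (y 0 0)
      (S0 ∪ {x t, w 0, g t 0} ∪ {w 0, y 0 0, z 0 0}) := by
    refine T.trans e01 e2 ?_
    intro v hv
    simp only [mem_inter, mem_union, mem_insert, mem_singleton] at hv ⊢
    obtain ⟨h1, h2⟩ := hv
    rw [hS0m] at h1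
    rcases h2 with rfl | rfl | rfl
    · rfl
    · exfalso
      rcases h1 with (⟨i, hi, h⟩ | ⟨i, hi, h⟩ | ⟨i, hi, h⟩ | ⟨i, hi, h⟩) | h | h | h
      · exact yx 0 hm0 0 hm0 i (by omega) h.symm
      · exact yw 0 hm0 0 hm0 (i + 1) (by omega) h.symm
      · exact hyg 0 hm0 0 hm0 i (by omega) (i + 1) (by omega) h.symm
      · exact hy.di (i + 1) (by omega) (i + 1) (by omega) 0 hm0 0 hm0 (by omega) (by omega) h
      · exact yx 0 hm0 0 hm0 t (by omega) h
      · exact yw 0 hm0 0 hm0 0 hm0 h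
      · exact hyg 0 hm0 0 hm0 t (by omega) 0 hm0 h
    · exfalso
      rcases h1 with (⟨i, hi, h⟩ | ⟨i, hi, h⟩ | ⟨i, hi, h⟩ | ⟨i, hi, h⟩) | h | h | h
      · exact zx 0 hm0 0 hm0 i (by omega) h.symm
      · exact zw 0 hm0 0 hm0 (i + 1) (by omega) h.symm
      · exact hzg 0 hm0 0 hm0 i (by omega) (i + 1) (by omega) h.symm
      · exact hzy 0 hm0 0 hm0 (i + 1) (by omega) (i + 1) (by omega) h.symm
      · exact zx 0 hm0 0 hm0 t (by omega) h
      · exact zw 0 hm0 0 hm0 0 hm0 h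
      · exact hzg 0 hm0 0 hm0 t (by omega) 0 hm0 h
  have h2s : 2 * t + 1 + 1 = 2 * s := by omega
  rw [h2s] at e3
  obtain ⟨S', hS', e4, hc, -, -⟩ := T.shrink e3
  refine ⟨S', e4, by omega, fun v hv => ?_⟩
  have hv' := hS' hv
  simp only [mem_union, mem_insert, mem_singleton] at hv'
  rw [hS0m] at hv'
  rcases hv' with ((⟨i, hi, h⟩ | ⟨i, hi, h⟩ | ⟨i, hi, h⟩ | ⟨i, hi, h⟩) | h | h | h) | h | h | h
  · exact Or.inl ⟨i, by omega, h.symm⟩
  · exact Or.inr (Or.inl ⟨i + 1, by omega, h.symm⟩)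
  · exact Or.inr (Or.inr (Or.inr (Or.inl ⟨i, by omega, i + 1, by omega, h.symm⟩)))
  · exact Or.inr (Or.inr (Or.inl ⟨i + 1, by omega, i + 1, by omega, h.symm⟩))
  · exact Or.inl ⟨t, by omega, h⟩
  · exact Or.inr (Or.inl ⟨0, hm0, h⟩)
  · exact Or.inr (Or.inr (Or.inr (Or.inl ⟨t, by omega, 0, hm0, h⟩)))
  · exact Or.inr (Or.inl ⟨0, hm0, h⟩)
  · exact Or.inr (Or.inr (Or.inl ⟨0, hm0, 0, hm0, h⟩))
  · exact Or.inr (Or.inr (Or.inr (Or.inr h)))

end

end Pool.Agent.Helper6.Tri
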