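import Pool.Agent.Helper61.Tri.Goals

/-!
# MP_5b3c48_co, packet E7
-/

set_option autoImplicit false

open Finset

namespace Pool.Agent.Helper6.Tri

open Pool.Agent.Helper61.Tri

noncomputable section

open scoped Classical

variable {V : Type} [Fintype V]

theorem cn_big {G : SimpleGraph V} {m : ℕ} {a : V} {d : V} (b : ℕ → V)
    (hinj : ∀ i < m, ∀ j < m, b i = b j → i = j)
    (h : ∀ i < m, G.Adj a (b i) ∧ G.Adj d (b i)) : m ≤ (cn G a d).card := by
  have h1 : (Finset.range m).image b ⊆ cn G a d := by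
    intro v hv
    rw [Finset.mem_image] at hv
    obtain ⟨i, hi, rfl⟩ := hv
    rw [Finset.mem_range] at hi
    simp only [cn, Finset.mem_filter, Finset.mem_univ, true_and]
    exact h i hi
  have h2 : ((Finset.range m).image b).card = m := by
    rw [Finset.card_image_of_injOn, Finset.card_range]
    intro i hi j hj hij
    simp only [Finset.coe_range, Set.mem_Iio] at hi hj
    exact hinj i hi j hj hij
  calc m = _ := h2.symm
    _ ≤ _ := Finset.card_le_card h1

/-- Linking two vertices of one side of the grid through all centres. -/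
theorem link_side (hL : Link) (G : SimpleGraph V) (m r : ℕ) (hr : 1 ≤ r) (a b : ℕ → V)
    (hinja : ∀ i < m, ∀ j < m, a i = a j → i = j) (hinjb : ∀ i < m, ∀ j < m, b i = b j → i = j)
    (hab : ∀ i < m, ∀ j < m, G.Adj (a i) (b j))
    (c : Fin r → V) (hc : Function.Injective c)
    (hca : ∀ l, ∀ i < m, G.Adj (a i) (c l)) (hcb : ∀ l, ∀ i < m, G.Adj (b i) (c l))
    (p q : ℕ) (hp : p < m) (hq : q < m) (hpq : p ≠ q) (S : Finset V)
    (hpS : a p ∉ S) (hqS : a q ∉ S) (hcS : ∀ l, c l ∉ S) (hS : S.card + 8 * r + 10 ≤ m) :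
    ∃ S', EP G (2 * r) (a p) (a q) S' ∧ Disjoint S S' := by
  have hlink : ∀ i < m, ∀ l, G.Adj (a i) (c l) ∧ m ≤ (cn G (a i) (c l)).card := by
    intro i hi l
    refine ⟨hca l i hi, cn_big b hinjb fun j hj => ⟨hab i hi j hj, (hcb l j hj).symm⟩⟩
  have hne : ∀ i < m, ∀ l, a i ≠ c l := fun i hi l => (hca l i hi).ne
  have h := hL V G (List.ofFn c) ((Finset.range m).image a) S (a p) (a q) m
    (List.nodup_ofFn.mpr hc) (by
      intro h0
      have := congrArg List.length h0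
      rw [List.length_ofFn] at this
      simp at this
      omega)
    (fun h0 => hpq (hinja p hp q hq h0))
    (by
      intro h0
      rw [List.mem_ofFn] at h0
      obtain ⟨l, hl⟩ := h0
      exact hne p hp l hl.symm)
    (by
      intro h0
      rw [List.mem_ofFn] at h0
      obtain ⟨l, hl⟩ := h0
      exact hne q hq l hl.symm)
    hpS hqS
    (by
      intro d hd
      rw [List.mem_ofFn] at hd
      obtain ⟨l, rfl⟩ := hd
      exact hcS l)
    (by
      intro z hz d hd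
      rw [Finset.mem_image] at hz
      obtain ⟨i, hi, rfl⟩ := hz
      rw [Finset.mem_range] at hi
      rw [List.mem_ofFn] at hd
      obtain ⟨l, rfl⟩ := hd
      exact hlink i hi l)
    (by
      rw [Finset.card_image_of_injOn, Finset.card_range]
      intro i hi j hj hij
      simp only [Finset.coe_range, Set.mem_Iio] at hi hj
      exact hinja i hi j hj hij)
    (by
      intro d hd
      have hd' := List.mem_of_mem_head? (Option.mem_def.mpr hd)
      rw [List.mem_ofFn] at hd'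
      obtain ⟨l, rfl⟩ := hd'
      exact hlink p hp l)
    (by
      intro d hd
      have hd' := List.mem_of_mem_getLast? (Option.mem_def.mpr hd)
      rw [List.mem_ofFn] at hd'
      obtain ⟨l, rfl⟩ := hd'
      exact hlink q hq l)
    (by rw [List.length_ofFn]; exact hS)
  rw [List.length_ofFn] at h
  exact h

/-- Packet E7. -/
theorem e7 : EPTools → Link → E7 := by
  intro T hL s hs V _ G m x w c y u z hm h
  have hm0 : 0 < m := by omega
  have hm1 : 1 < m := by omega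
  have hx0w0 := h.grid.adj 0 hm0 0 hm0
  have hx1w0 := h.grid.adj 1 hm1 0 hm0
  have hx0w1 := h.grid.adj 0 hm0 1 hm1
  have yx : ∀ i < m, ∀ j < m, ∀ i' < m, y i j ≠ x i' :=
    fun i hi j hj i' hi' => h.apex.nx i hi j hj i' hi' 0 hm0
  have yw : ∀ i < m, ∀ j < m, ∀ j' < m, y i j ≠ w j' :=
    fun i hi j hj j' hj' => h.apex.nw i hi j hj 0 hm0 j' hj'
  have ux : ∀ i < m, ∀ j < m, ∀ i' < m, u i j ≠ x i' :=
    fun i hi j hj i' hi' => h.ux i hi j hj i' hi' 0 hm0
  have uw : ∀ i < m, ∀ j < m, ∀ j' < m, u i j ≠ w j' :=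
    fun i hi j hj j' hj' => h.uw i hi j hj 0 hm0 j' hj'
  have zx : ∀ i < m, ∀ j < m, ∀ i' < m, z i j ≠ x i' :=
    fun i hi j hj i' hi' => h.zx i hi j hj i' hi' 0 hm0
  have zw : ∀ i < m, ∀ j < m, ∀ j' < m, z i j ≠ w j' :=
    fun i hi j hj j' hj' => h.zw i hi j hj 0 hm0 j' hj'
  have yc : ∀ i < m, ∀ j < m, ∀ l, y i j ≠ c l :=
    fun i hi j hj l => h.yc l i hi j hj 0 hm0 0 hm0
  have uc : ∀ i < m, ∀ j < m, ∀ l, u i j ≠ c l :=
    fun i hi j hj l => h.uc l i hi j hj 0 hm0 0 hm0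
  have zc : ∀ i < m, ∀ j < m, ∀ l, z i j ≠ c l :=
    fun i hi j hj l => h.zc l i hi j hj 0 hm0 0 hm0
  have xw : ∀ i < m, ∀ j < m, x i ≠ w j := fun i hi j hj => (h.grid.adj i hi j hj).ne
  have x01 : x 0 ≠ x 1 := fun e => absurd (h.grid.injx 0 hm0 1 hm1 e) (by norm_num)
  have w01 : w 0 ≠ w 1 := fun e => absurd (h.grid.injw 0 hm0 1 hm1 e) (by norm_num)
  have cx : ∀ i < m, ∀ l, x i ≠ c l := fun i hi l => (h.cen l i hi).1.ne
  have cw : ∀ i < m, ∀ l, w i ≠ c l := fun i hi l => (h.cen l i hi).2.ne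
  have e1 : EP G 1 (w 0) (y 0 0) {w 0, y 0 0, z 0 0} :=
    T.single (h.apex.adjw 0 hm0 0 hm0) (h.zadj 0 hm0 0 hm0).1 (h.zadj 0 hm0 0 hm0).2
  have e2 : EP G 1 (y 0 0) (x 0) {y 0 0, x 0, u 0 0} :=
    T.single (h.apex.adjx 0 hm0 0 hm0).symm (h.uadj 0 hm0 0 hm0).2 (h.uadj 0 hm0 0 hm0).1
  have zu : z 0 0 ≠ u 0 0 := (h.uz 0 hm0 0 hm0 0 hm0 0 hm0).symm
  have e12 : EP G (1 + 1) (w 0) (x 0) ({w 0, y 0 0, z 0 0} ∪ {y 0 0, x 0, u 0 0}) := by
    refine T.trans e1 e2 ?_
    intro v hv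
    simp only [Finset.mem_inter, Finset.mem_insert, Finset.mem_singleton] at hv ⊢
    obtain ⟨h1, h2⟩ := hv
    rcases h1 with rfl | rfl | rfl
    · rcases h2 with h2 | h2 | h2
      · exact absurd h2.symm (yw 0 hm0 0 hm0 0 hm0)
      · exact absurd h2.symm (xw 0 hm0 0 hm0)
      · exact absurd h2.symm (uw 0 hm0 0 hm0 0 hm0)
    · rfl
    · rcases h2 with h2 | h2 | h2
      · exact h2
      · exact absurd h2 (zx 0 hm0 0 hm0 0 hm0)
      · exact absurd h2 zu
  have hy : y 1 0 ≠ y 0 0 ∨ y 0 1 ≠ y 0 0 := by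
    by_contra hcon
    push Not at hcon
    exact h.apex.di 1 hm1 0 hm0 0 hm0 1 hm1 (by norm_num) (by norm_num)
      (hcon.1.trans hcon.2.symm)
  have hs1 : 1 ≤ s - 1 := by omega
  rcases hy with hy | hy
  · -- first case
    have e3 : EP G 1 (x 1) (w 0) {x 1, w 0, y 1 0} :=
      T.single hx1w0 (h.apex.adjx 1 hm1 0 hm0) (h.apex.adjw 1 hm1 0 hm0)
    obtain ⟨S', e4, hd⟩ := link_side hL G m (s - 1) hs1 x w h.grid.injx h.grid.injw
      h.grid.adj c h.cinj (fun l i hi => (h.cen l i hi).1) (fun l i hi => (h.cen l i hi).2)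
      0 1 hm0 hm1 (by norm_num) {w 0, y 0 0, z 0 0, u 0 0, y 1 0}
      (by
        simp only [Finset.mem_insert, Finset.mem_singleton, not_or]
        exact ⟨xw 0 hm0 0 hm0, (yx 0 hm0 0 hm0 0 hm0).symm, (zx 0 hm0 0 hm0 0 hm0).symm,
          (ux 0 hm0 0 hm0 0 hm0).symm, (yx 1 hm1 0 hm0 0 hm0).symm⟩)
      (by
        simp only [Finset.mem_insert, Finset.mem_singleton, not_or]
        exact ⟨xw 1 hm1 0 hm0, (yx 0 hm0 0 hm0 1 hm1).symm, (zx 0 hm0 0 hm0 1 hm1).symm,
          (ux 0 hm0 0 hm0 1 hm1).symm, (yx 1 hm1 0 hm0 1 hm1).symm⟩)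
      (by
        intro l
        simp only [Finset.mem_insert, Finset.mem_singleton, not_or]
        exact ⟨(cw 0 hm0 l).symm, (yc 0 hm0 0 hm0 l).symm, (zc 0 hm0 0 hm0 l).symm,
          (uc 0 hm0 0 hm0 l).symm, (yc 1 hm1 0 hm0 l).symm⟩)
      (by
        have : ({w 0, y 0 0, z 0 0, u 0 0, y 1 0} : Finset V).card ≤ 5 := Finset.card_le_five
        omega)
    have hS' : ∀ v ∈ S', v ≠ w 0 ∧ v ≠ y 0 0 ∧ v ≠ z 0 0 ∧ v ≠ u 0 0 ∧ v ≠ y 1 0 := by
      intro v hv
      have h1 := Finset.disjoint_right.mp hd hv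
      simp only [Finset.mem_insert, Finset.mem_singleton, not_or] at h1
      exact h1
    have e5 := T.trans e12 e4 (by
      intro v hv
      simp only [Finset.mem_inter, Finset.mem_union, Finset.mem_insert,
        Finset.mem_singleton] at hv ⊢
      obtain ⟨h1, h2⟩ := hv
      have h3 := hS' v h2
      rcases h1 with (h1 | h1 | h1) | (h1 | h1 | h1)
      · exact absurd h1 h3.1
      · exact absurd h1 h3.2.1
      · exact absurd h1 h3.2.2.1
      · exact absurd h1 h3.2.1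
      · exact h1
      · exact absurd h1 h3.2.2.2.1)
    have e6 := T.close e5 e3 (by
      intro v hv
      simp only [Finset.mem_inter, Finset.mem_union, Finset.mem_insert,
        Finset.mem_singleton] at hv ⊢
      obtain ⟨h1, h2⟩ := hv
      rcases h2 with h2 | h2 | h2
      · exact Or.inr h2
      · exact Or.inl h2
      · exfalso
        rcases h1 with ((h1 | h1 | h1) | (h1 | h1 | h1)) | h1
        · exact yw 1 hm1 0 hm0 0 hm0 (h2.symm.trans h1)
        · exact hy (h2.symm.trans h1)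
        · exact h.zy 0 hm0 0 hm0 1 hm1 0 hm0 (h1.symm.trans h2)
        · exact hy (h2.symm.trans h1)
        · exact yx 1 hm1 0 hm0 0 hm0 (h2.symm.trans h1)
        · exact h.uy 0 hm0 0 hm0 1 hm1 0 hm0 (h1.symm.trans h2)
        · exact (hS' v h1).2.2.2.2 h2) (by omega) le_rfl
    have h7 : 1 + 1 + 2 * (s - 1) + 1 = 2 * s + 1 := by omega
    rw [h7] at e6
    exact e6
  · -- second case
    have e3 : EP G 1 (x 0) (w 1) {x 0, w 1, y 0 1} :=
      T.single hx0w1 (h.apex.adjx 0 hm0 1 hm1) (h.apex.adjw 0 hm0 1 hm1)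
    obtain ⟨S', e4, hd⟩ := link_side hL G m (s - 1) hs1 w x h.grid.injw h.grid.injx
      (fun i hi j hj => (h.grid.adj j hj i hi).symm) c h.cinj
      (fun l i hi => (h.cen l i hi).2) (fun l i hi => (h.cen l i hi).1)
      1 0 hm1 hm0 (by norm_num) {x 0, y 0 0, z 0 0, u 0 0, y 0 1}
      (by
        simp only [Finset.mem_insert, Finset.mem_singleton, not_or]
        exact ⟨(xw 0 hm0 1 hm1).symm, (yw 0 hm0 0 hm0 1 hm1).symm, (zw 0 hm0 0 hm0 1 hm1).symm,
          (uw 0 hm0 0 hm0 1 hm1).symm, (yw 0 hm0 1 hm1 1 hm1).symm⟩)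
      (by
        simp only [Finset.mem_insert, Finset.mem_singleton, not_or]
        exact ⟨(xw 0 hm0 0 hm0).symm, (yw 0 hm0 0 hm0 0 hm0).symm, (zw 0 hm0 0 hm0 0 hm0).symm,
          (uw 0 hm0 0 hm0 0 hm0).symm, (yw 0 hm0 1 hm1 0 hm0).symm⟩)
      (by
        intro l
        simp only [Finset.mem_insert, Finset.mem_singleton, not_or]
        exact ⟨(cx 0 hm0 l).symm, (yc 0 hm0 0 hm0 l).symm, (zc 0 hm0 0 hm0 l).symm,
          (uc 0 hm0 0 hm0 l).symm, (yc 0 hm0 1 hm1 l).symm⟩)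
      (by
        have : ({x 0, y 0 0, z 0 0, u 0 0, y 0 1} : Finset V).card ≤ 5 := Finset.card_le_five
        omega)
    have hS' : ∀ v ∈ S', v ≠ x 0 ∧ v ≠ y 0 0 ∧ v ≠ z 0 0 ∧ v ≠ u 0 0 ∧ v ≠ y 0 1 := by
      intro v hv
      have h1 := Finset.disjoint_right.mp hd hv
      simp only [Finset.mem_insert, Finset.mem_singleton, not_or] at h1
      exact h1
    have e5 := T.trans e12 e3 (by
      intro v hv
      simp only [Finset.mem_inter, Finset.mem_union, Finset.mem_insert,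
        Finset.mem_singleton] at hv ⊢
      obtain ⟨h1, h2⟩ := hv
      rcases h2 with h2 | h2 | h2
      · exact h2
      · exfalso
        rcases h1 with (h1 | h1 | h1) | (h1 | h1 | h1)
        · exact w01 (h1.symm.trans h2)
        · exact yw 0 hm0 0 hm0 1 hm1 (h1.symm.trans h2)
        · exact zw 0 hm0 0 hm0 1 hm1 (h1.symm.trans h2)
        · exact yw 0 hm0 0 hm0 1 hm1 (h1.symm.trans h2)
        · exact xw 0 hm0 1 hm1 (h1.symm.trans h2)
        · exact uw 0 hm0 0 hm0 1 hm1 (h1.symm.trans h2)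
      · exfalso
        rcases h1 with (h1 | h1 | h1) | (h1 | h1 | h1)
        · exact yw 0 hm0 1 hm1 0 hm0 (h2.symm.trans h1)
        · exact hy (h2.symm.trans h1)
        · exact h.zy 0 hm0 0 hm0 0 hm0 1 hm1 (h1.symm.trans h2)
        · exact hy (h2.symm.trans h1)
        · exact yx 0 hm0 1 hm1 0 hm0 (h2.symm.trans h1)
        · exact h.uy 0 hm0 0 hm0 0 hm0 1 hm1 (h1.symm.trans h2))
    have e6 := T.close e5 e4 (by
      intro v hv
      simp only [Finset.mem_inter, Finset.mem_union, Finset.mem_insert,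
        Finset.mem_singleton] at hv ⊢
      obtain ⟨h1, h2⟩ := hv
      have h3 := hS' v h2
      rcases h1 with ((h1 | h1 | h1) | (h1 | h1 | h1)) | (h1 | h1 | h1)
      · exact Or.inl h1
      · exact absurd h1 h3.2.1
      · exact absurd h1 h3.2.2.1
      · exact absurd h1 h3.2.1
      · exact absurd h1 h3.1
      · exact absurd h1 h3.2.2.2.1
      · exact absurd h1 h3.1
      · exact Or.inr h1
      · exact absurd h1 h3.2.2.2.2) (by omega) (by omega)
    have h7 : 1 + 1 + 1 + 2 * (s - 1) = 2 * s + 1 := by omega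
    rw [h7] at e6
    exact e6

end

end Pool.Agent.Helper6.Tri
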