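import Pool.Agent.Helper61.Tri.Goals

/-!
# MP_5b3c48_co, packet NEAREXT
-/

set_option autoImplicit false

open Finset

namespace Pool.Agent.Helper6.Tri

open Pool.Agent.Helper61.Tri

noncomputable section

open scoped Classical

variable {V : Type} [Fintype V]

/-- few common neighbours -/
def lowc (G : SimpleGraph V) (s : ℕ) (u v : V) : Prop := (cn G u v).card ≤ s

theorem cn_comm (G : SimpleGraph V) (u v : V) : cn G v u = cn G u v := by
  ext w
  simp [cn, and_comm]

theorem lowc_comm (G : SimpleGraph V) (s : ℕ) (u v : V) : lowc G s u v ↔ lowc G s v u := by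
  unfold lowc
  rw [cn_comm]

/-- ordered triangles whose first edge has few common neighbours -/
def F1 (G : SimpleGraph V) (s : ℕ) : Finset (V × V × V) :=
  (ot G).filter fun p => lowc G s p.1 p.2.1

def F2 (G : SimpleGraph V) (s : ℕ) : Finset (V × V × V) :=
  (ot G).filter fun p => lowc G s p.1 p.2.2

def F3 (G : SimpleGraph V) (s : ℕ) : Finset (V × V × V) :=
  (ot G).filter fun p => lowc G s p.2.1 p.2.2

/-- ordered edges with at most `s` common neighbours -/
def E1s (G : SimpleGraph V) (s : ℕ) : Finset (V × V) := (oe G).filter fun p => lowc G s p.1 p.2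

/-- ordered edges with exactly `s` common neighbours -/
def Eq1 (G : SimpleGraph V) (s : ℕ) : Finset (V × V) :=
  (oe G).filter fun p => (cn G p.1 p.2).card = s

theorem card_F2 (G : SimpleGraph V) (s : ℕ) : (F2 G s).card = (F1 G s).card := by
  refine Finset.card_bij' (fun p _ => (p.1, p.2.2, p.2.1)) (fun p _ => (p.1, p.2.2, p.2.1))
    ?_ ?_ ?_ ?_
  · intro p hp
    simp only [F2, F1, ot, mem_filter, mem_univ, true_and] at hp ⊢
    exact ⟨⟨hp.1.2.1, hp.1.1, hp.1.2.2.symm⟩, hp.2⟩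
  · intro p hp
    simp only [F2, F1, ot, mem_filter, mem_univ, true_and] at hp ⊢
    exact ⟨⟨hp.1.2.1, hp.1.1, hp.1.2.2.symm⟩, hp.2⟩
  · intro p _; rfl
  · intro p _; rfl

theorem card_F3 (G : SimpleGraph V) (s : ℕ) : (F3 G s).card = (F1 G s).card := by
  refine Finset.card_bij' (fun p _ => (p.2.1, p.2.2, p.1)) (fun p _ => (p.2.2, p.1, p.2.1))
    ?_ ?_ ?_ ?_
  · intro p hp
    simp only [F3, F1, ot, mem_filter, mem_univ, true_and] at hp ⊢
    exact ⟨⟨hp.1.2.2, hp.1.1.symm, hp.1.2.1.symm⟩, hp.2⟩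
  · intro p hp
    simp only [F3, F1, ot, mem_filter, mem_univ, true_and] at hp ⊢
    exact ⟨⟨hp.1.2.1.symm, hp.1.2.2.symm, hp.1.1⟩, hp.2⟩
  · intro p _; rfl
  · intro p _; rfl

theorem card_F1 (G : SimpleGraph V) (s : ℕ) :
    (F1 G s).card = ∑ q ∈ E1s G s, (cn G q.1 q.2).card := by
  rw [Finset.card_eq_sum_card_fiberwise (f := fun p : V × V × V => (p.1, p.2.1)) (t := E1s G s)]
  · refine Finset.sum_congr rfl fun q hq => ?_
    refine Finset.card_bij' (fun p _ => p.2.2) (fun y _ => (q.1, q.2, y)) ?_ ?_ ?_ ?_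
    · intro p hp
      simp only [F1, ot, mem_filter, mem_univ, true_and] at hp
      obtain ⟨⟨⟨h1, h2, h3⟩, h4⟩, h5⟩ := hp
      simp only [cn, mem_filter, mem_univ, true_and]
      rw [← h5]
      exact ⟨h2, h3⟩
    · intro y hy
      simp only [cn, mem_filter, mem_univ, true_and] at hy
      simp only [E1s, oe, mem_filter, mem_univ, true_and] at hq
      simp only [F1, ot, mem_filter, mem_univ, true_and]
      exact ⟨⟨⟨hq.1, hy.1, hy.2⟩, hq.2⟩, trivial⟩
    · intro p hp
      simp only [mem_filter] at hp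
      have := hp.2
      rw [← this]
    · intro y _; rfl
  · intro p hp
    simp only [F1, ot, coe_filter, mem_filter, mem_univ, true_and, Set.mem_ofPred_eq] at hp
    simp only [E1s, oe, coe_filter, mem_filter, mem_univ, true_and, Set.mem_ofPred_eq]
    exact ⟨hp.1.1, hp.2⟩

/-- triangles with two edges with few common neighbours, one of them the first -/
def DD2 (G : SimpleGraph V) (s : ℕ) : Finset (V × V × V) :=
  (ot G).filter fun p => lowc G s p.1 p.2.1 ∧ (lowc G s p.1 p.2.2 ∨ lowc G s p.2.2 p.2.1)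

theorem count (G : SimpleGraph V) (s : ℕ) :
    (ot G).card + (DD2 G s).card ≤ 3 * (F1 G s).card + (ot (G2 G s)).card := by
  have h0 : (ot (G2 G s)).card = ((ot G).filter fun p => ¬ lowc G s p.1 p.2.1 ∧
      ¬ lowc G s p.1 p.2.2 ∧ ¬ lowc G s p.2.1 p.2.2).card := by
    congr 1
    ext p
    simp only [ot, G2, lowc, mem_filter, mem_univ, true_and, not_le]
    constructor
    · rintro ⟨⟨h1, h2⟩, ⟨h3, h4⟩, ⟨h5, h6⟩⟩
      exact ⟨⟨h1, h3, h5⟩, h2, h4, h6⟩
    · rintro ⟨⟨h1, h3, h5⟩, h2, h4, h6⟩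
      exact ⟨⟨h1, h2⟩, ⟨h3, h4⟩, ⟨h5, h6⟩⟩
  have h3 : 3 * (F1 G s).card = (F1 G s).card + (F2 G s).card + (F3 G s).card := by
    rw [card_F2, card_F3]; ring
  rw [h0, h3]
  unfold DD2 F1 F2 F3
  simp only [Finset.card_filter]
  rw [Finset.card_eq_sum_ones, ← Finset.sum_add_distrib, ← Finset.sum_add_distrib,
    ← Finset.sum_add_distrib, ← Finset.sum_add_distrib]
  refine Finset.sum_le_sum fun p _ => ?_
  have h4 := lowc_comm G s p.2.2 p.2.1
  by_cases h1 : lowc G s p.1 p.2.1 <;> by_cases h2 : lowc G s p.1 p.2.2 <;>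
    by_cases h5 : lowc G s p.2.1 p.2.2 <;> simp [h1, h2, h4, h5]

theorem card_E (G : SimpleGraph V) (s : ℕ) (hs : 1 ≤ s) :
    (F1 G s).card ≤ (s - 1) * (oe G).card + (Eq1 G s).card := by
  rw [card_F1]
  have h1 : ∀ q ∈ E1s G s, (cn G q.1 q.2).card ≤ (s - 1) + if (cn G q.1 q.2).card = s then 1 else 0 := by
    intro q hq
    simp only [E1s, lowc, mem_filter] at hq
    split_ifs with h
    · omega
    · omega
  calc ∑ q ∈ E1s G s, (cn G q.1 q.2).card
      ≤ ∑ q ∈ E1s G s, ((s - 1) + if (cn G q.1 q.2).card = s then 1 else 0) :=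
        Finset.sum_le_sum h1
    _ = (s - 1) * (E1s G s).card + ((E1s G s).filter fun q => (cn G q.1 q.2).card = s).card := by
        rw [Finset.sum_add_distrib, Finset.sum_const, smul_eq_mul, Finset.card_filter]
        ring
    _ ≤ _ := by
        gcongr
        · exact Finset.filter_subset _ _
        · intro q hq
          simp only [E1s, mem_filter] at hq
          simp only [Eq1, mem_filter]
          exact ⟨hq.1.1, hq.2⟩

theorem card_low (G : SimpleGraph V) (s : ℕ) : (F1 G s).card ≤ s * (oe G).card := by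
  rw [card_F1]
  calc ∑ q ∈ E1s G s, (cn G q.1 q.2).card ≤ ∑ q ∈ E1s G s, s := by
        refine Finset.sum_le_sum fun q hq => ?_
        simp only [E1s, lowc, mem_filter] at hq
        exact hq.2
    _ = s * (E1s G s).card := by rw [Finset.sum_const, smul_eq_mul]; ring
    _ ≤ _ := by
        gcongr
        exact Finset.filter_subset _ _

theorem card_star (G : SimpleGraph V) (s : ℕ) :
    (Eq1 G s).card ≤ (univ.filter fun p : V × V => Estar G s p.1 p.2).card + (DD2 G s).card := by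
  have h1 : (Eq1 G s).card = ((Eq1 G s).filter fun p => Estar G s p.1 p.2).card +
      ((Eq1 G s).filter fun p => ¬ Estar G s p.1 p.2).card :=
    (Finset.card_filter_add_card_filter_not (s := Eq1 G s) (fun p => Estar G s p.1 p.2)).symm
  rw [h1]
  refine add_le_add ?_ ?_
  · apply Finset.card_le_card
    intro p hp
    simp only [mem_filter, mem_univ, true_and] at hp ⊢
    exact hp.2
  · have h2 : ∀ p ∈ (Eq1 G s).filter (fun p => ¬ Estar G s p.1 p.2), ∃ y,
        (p.1, p.2, y) ∈ DD2 G s := by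
      intro p hp
      simp only [Eq1, oe, mem_filter, mem_univ, true_and] at hp
      obtain ⟨⟨h3, h4⟩, h5⟩ := hp
      unfold Estar at h5
      simp only [h3, h4, true_and, not_forall] at h5
      obtain ⟨y, hy, h6⟩ := h5
      refine ⟨y, ?_⟩
      simp only [cn, mem_filter, mem_univ, true_and] at hy
      simp only [DD2, ot, lowc, mem_filter, mem_univ, true_and]
      refine ⟨⟨h3, hy.1, hy.2⟩, h4.le, ?_⟩
      by_contra hcon
      simp only [not_or, not_le] at hcon
      exact h6 ⟨⟨hy.1, hcon.1⟩, ⟨hy.2.symm, hcon.2⟩⟩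
    let f : V × V → V := fun p => if h : ∃ y, (p.1, p.2, y) ∈ DD2 G s then h.choose else p.1
    have hf : ∀ p ∈ (Eq1 G s).filter (fun p => ¬ Estar G s p.1 p.2),
        (p.1, p.2, f p) ∈ DD2 G s := by
      intro p hp
      have h3 := h2 p hp
      simp only [f, dif_pos h3]
      exact h3.choose_spec
    refine Finset.card_le_card_of_injOn (fun p => (p.1, p.2, f p)) hf ?_
    intro p _ q _ hpq
    simp only [Prod.mk.injEq] at hpq
    exact Prod.ext hpq.1 hpq.2.1

/-- Packet NEAREXT. -/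
theorem nearext : NearExt := by
  intro s hs ε hε
  refine ⟨ε / (4 * s + 2), by positivity, fun V _ G h1 h2 h3 => ?_⟩
  set n : ℝ := (Fintype.card V : ℝ) with hn
  set δ : ℝ := ε / (4 * s + 2) with hδ
  have hδε : δ * (4 * s + 2) = ε := by rw [hδ]; field_simp
  have hδ0 : 0 < δ := by rw [hδ]; positivity
  have c1 : ((ot G).card : ℝ) + ((DD2 G s).card : ℝ) ≤
      3 * ((F1 G s).card : ℝ) + ((ot (G2 G s)).card : ℝ) := by exact_mod_cast count G s
  have c2 : ((F1 G s).card : ℝ) ≤ ((s:ℝ) - 1) * ((oe G).card : ℝ) + ((Eq1 G s).card : ℝ) := by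
    have := card_E G s hs
    have h4 : (((s - 1 : ℕ) : ℝ)) = (s:ℝ) - 1 := by push_cast [Nat.cast_sub hs]; ring
    rw [← h4]
    exact_mod_cast this
  have c3 : ((F1 G s).card : ℝ) ≤ (s:ℝ) * ((oe G).card : ℝ) := by exact_mod_cast card_low G s
  have c4 : ((Eq1 G s).card : ℝ) ≤
      ((univ.filter fun p : V × V => Estar G s p.1 p.2).card : ℝ) + ((DD2 G s).card : ℝ) := by
    exact_mod_cast card_star G s
  have hs' : (1:ℝ) ≤ s := by exact_mod_cast hs
  have hD0 : (0:ℝ) ≤ ((DD2 G s).card : ℝ) := Nat.cast_nonneg _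
  have hn2 : 0 ≤ n ^ 2 := sq_nonneg n
  have e1 : ((s:ℝ) - 1) * ((oe G).card : ℝ) ≤ ((s:ℝ) - 1) * ((1 / 2 + δ) * n ^ 2) :=
    mul_le_mul_of_nonneg_left h1 (by linarith)
  have e2 : (s:ℝ) * ((oe G).card : ℝ) ≤ (s:ℝ) * ((1 / 2 + δ) * n ^ 2) :=
    mul_le_mul_of_nonneg_left h1 (by linarith)
  have e3 : ε * n ^ 2 = (4 * s + 2) * (δ * n ^ 2) := by rw [← hδε]; ring
  have e4 : 0 ≤ δ * n ^ 2 := mul_nonneg hδ0.le hn2
  have e5 : 0 ≤ (s:ℝ) * (δ * n ^ 2) := mul_nonneg (by linarith) e4
  nlinarith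

end

end Pool.Agent.Helper6.Tri
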